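import Pool.Agent.H.MP_40f8bf_an.Final

/-!
# MP_40f8bf_an, Q2: an SRB measure with exponents of both signs in an undominated `Ecu`

The example is a skew product `f (z, x) = (A z, x + h (z, x))` on the three-torus over the
hyperbolic automorphism `A (z₀, z₁) = (z₀ + z₁, z₀)` of the two-torus. The torus `x = 0` is
invariant, the fibre multiplier along it is
`a (z) = exp (-2/5 + (9/40) (1 + cos 2πz₀) (1 + cos 2πz₁))`. The average of `log a` is `-7/40`,
while `a (0) = exp (1/2)` exceeds the golden mean, the unstable eigenvalue of `A`. All slopes in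
the fibres lie between `0.64` and `1.7`, so they exceed the stable eigenvalue of `A`, and
`|x| < 1/4` is a trapping region. The SRB measure is Lebesgue measure on `x = 0`.
-/

set_option autoImplicit false

open MeasureTheory Pool.Agent.H.MP_40f8bf_an

namespace Pool.Agent.Results.MP_40f8bf_an.MixedCenterUnstableSRB

/-- **There are a dissipative `C^∞` diffeomorphism `f` of the three-torus, a compact invariant
attracting set `Λ` of `f`, a stable bundle `Es` and a two-dimensional center-unstable bundle `Ecu`
over `Λ`, and an SRB measure `μ` of `f` supported on `Λ`, whose two Lyapunov exponents along `Ecu`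
are one positive and one negative, such that `Ecu` has no dominated subsplitting over `Λ`, nor
even over the support of `μ`.** -/
theorem result : ∃ (f : TorusDiffeo 3) (Λ : Set (Torus 3))
    (Es Ecu : Torus 3 → Submodule ℝ (Vec 3)) (μ : Measure (Torus 3)),
    Dissipative f ∧ IsAttractingSet f Λ ∧ IsStableCenterUnstable f Λ Es Ecu ∧
      (∀ p ∈ Λ, Module.finrank ℝ (Ecu p) = 2) ∧ IsSRB f μ ∧ μ Λᶜ = 0 ∧
      (∃ χ₁ > 0, ∃ χ₂ < 0, ∀ᵐ p ∂μ, (∃ v ∈ Ecu p, v ≠ 0 ∧ HasExponent f p v χ₁) ∧
        ∃ w ∈ Ecu p, w ≠ 0 ∧ HasExponent f p w χ₂) ∧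
      ¬ HasDominatedSubsplitting f Λ Ecu ∧ ¬ HasDominatedSubsplitting f μ.support Ecu :=
  main

end Pool.Agent.Results.MP_40f8bf_an.MixedCenterUnstableSRB
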